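import Pool.Agent.H62.UN.Targets

/-!
# MP_8b378c_ag: composition of the geometric part
-/

set_option autoImplicit false

namespace Pool.Agent.H62.UN

open Polynomial Pool.Agent.H17.UN

/-- The rows of the board. -/
structure Rows : Prop where
  UNV : T_UNV
  UNQ : T_UNQ
  CTQ : T_CTQ
  DVC : T_DVC
  FIN : T_FIN
  SPR : T_SPR
  NFI : T_NFI
  SMC : T_SMC
  SRF : T_SRF
  CHT : T_CHT
  REG : T_REG
  DEG : T_DEG
  DG2 : T_DG2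
  NOE : T_NOE
  LVR : T_LVR
  LVD : T_LVD
  LVS : T_LVS
  DIV : T_DIV
  VZA : T_VZA
  VEX : F_VEX
  VUN : F_VUN
  VDS : F_VDS
  VCL : F_VCL
  VEF : F_VEF
  FSU : F_FSU
  SC0 : T_SC0
  TAU : T_TAU
  KSF : T_KSF
  HCL : T_HCL
  HEX : T_HEX
  HUN : T_HUN
  SPN : T_SPN
  QIR : T_QIR
  HCT : T_HCT
  HGF : T_HGF
  HGL : T_HGL
  HRD : T_HRD
  NRM : T_NRM
  SEC : F_SEC
  HDV : F_HDV
  HAR : F_HAR
  RAT : F_RAT
  FGR : T_FGR
  FRA : F_FRA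
  GLU : T_GLU
  SMO : F_SMO
  CPL : T_CPL
  TRD : T_TRD
  EVA : F_EVA

/-- The facts of the geometric part. -/
structure Geometry : Prop where
  FGR : T_FGR
  FRA : T_FRA
  GLU : T_GLU
  SMO : T_SMO
  CPL : T_CPL
  TRD : T_TRD
  VEX : T_VEX
  VUN : T_VUN
  VDS : T_VDS
  VCL : T_VCL
  VEF : T_VEF
  FSU : T_FSU
  SEC : T_SEC
  HDV : T_HDV
  HAR : T_HAR
  RAT : T_RAT
  EVA : ∀ (k F : Type) [Field k] [CharZero k] [Field F] [Algebra k F] (P Q : k[X]) (s y z : F),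
    CB P Q s y z → ∀ p0 : k, p0 ^ 2 = P.eval 1 → ∃ φ : ch k s y z 0 →ₐ[k] k, IsEv p0 φ

theorem geometry (r : Rows) : Geometry := by
  have unq := r.UNQ r.UNV
  have fin := r.FIN r.CTQ unq
  have cht := r.CHT r.SRF
  have lvr := r.LVR r.NFI r.REG r.NOE r.DVC r.CTQ unq
  have lvd := r.LVD r.NFI r.DEG r.NOE r.DVC r.CTQ unq
  have lvs := r.LVS r.NFI r.DEG
  have div := r.DIV r.NFI r.REG r.DEG r.DG2 r.NOE r.DVC
  have vza := r.VZA r.GLU r.SPR cht lvr lvd lvs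
  have spn := r.SPN r.KSF
  have hct := r.HCT spn r.KSF r.QIR r.HCL r.HUN
  have hgf := r.HGF spn r.QIR r.HEX r.HUN
  have hgl := r.HGL r.SC0 r.TAU hct hgf cht div
  have hrd := r.HRD r.SC0 r.TAU r.KSF hct
  have nrm := r.NRM r.SC0 r.TAU hrd r.HCL
  have fsu := r.FSU cht r.NOE fin
  exact ⟨r.FGR, r.FRA r.NOE, r.GLU, r.SMO r.NFI r.SMC cht, r.CPL, r.TRD, r.VEX cht lvd,
    r.VUN cht lvd vza, r.VDS vza, r.VCL cht lvr lvs vza, r.VEF cht lvr, fsu,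
    r.SEC r.SC0 r.TAU r.KSF r.HCL r.HEX r.HUN hrd,
    r.HDV r.KSF r.HCL r.HEX r.HUN hrd nrm, r.HAR hgl fsu, r.RAT r.SC0 r.TAU, r.EVA r.NFI cht⟩

end Pool.Agent.H62.UN
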