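import Pool.Agent.H1.UNT.KSF
import Pool.Agent.H1.UNT.LVS
import Pool.Agent.H11.UNT.SMO
import Pool.Agent.H13.UNT.HGL
import Pool.Agent.H14.UNT.UNQ
import Pool.Agent.H14.UNT.UNV
import Pool.Agent.H14.UNT.VDS
import Pool.Agent.H14.UNT.VUN
import Pool.Agent.H15.UNT.SEC
import Pool.Agent.H16.UNT.FIN
import Pool.Agent.H2.UNT.QIR
import Pool.Agent.H20.UNT.FRA
import Pool.Agent.H20.UNT.HCL
import Pool.Agent.H20.UNT.HEX
import Pool.Agent.H20.UNT.SPN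
import Pool.Agent.H21.UNT.HCT
import Pool.Agent.H36.UNT.CPL
import Pool.Agent.H36.UNT.EVA
import Pool.Agent.H36.UNT.VEF
import Pool.Agent.H37.UNT.HRD
import Pool.Agent.H37.UNT.NRM
import Pool.Agent.H37.UNT.VCL
import Pool.Agent.H38.UNT.DIV
import Pool.Agent.H4.UNT.LVD
import Pool.Agent.H4.UNT.VZA
import Pool.Agent.H49.UNT.REG
import Pool.Agent.H5.UNT.HGF
import Pool.Agent.H54.UNT.FGR
import Pool.Agent.H55.UNT.DG2
import Pool.Agent.H55.UNT.DVC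
import Pool.Agent.H56.UNT.TRD
import Pool.Agent.H60.UNT.LVR
import Pool.Agent.H60.UNT.NOE
import Pool.Agent.H60.UNT.SMC
import Pool.Agent.H60.UNT.SPR
import Pool.Agent.H60.UNT.SRF
import Pool.Agent.H60.UNT.VEX
import Pool.Agent.H62.UNT.CHT
import Pool.Agent.H62.UNT.DEG
import Pool.Agent.H62.UNT.FSU
import Pool.Agent.H62.UNT.GLU
import Pool.Agent.H62.UNT.HDV
import Pool.Agent.H62.UNT.HUN
import Pool.Agent.H62.UNT.TAU
import Pool.Agent.H63.UNT.HAR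
import Pool.Agent.H67.UNT.RAT
import Pool.Agent.H74.UNT.NFI
import Pool.Agent.H80.UNT.SC0
import Pool.Agent.H85.UNT.CTQ
import Pool.Agent.H62.UN.Asm

/-!
# MP_8b378c_ag: the geometric part, closed
-/

set_option autoImplicit false

namespace Pool.Agent.H62.UN

theorem rows : Rows where
  UNV := Pool.Agent.H14.UNT.pf_UNV
  UNQ := Pool.Agent.H14.UNT.pf_UNQ
  CTQ := Pool.Agent.H85.UNT.pf_CTQ
  DVC := Pool.Agent.H55.UNT.pf_DVC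
  FIN := Pool.Agent.H16.UNT.pf_FIN
  SPR := Pool.Agent.H60.UNT.pf_SPR
  NFI := Pool.Agent.H74.UNT.pf_NFI
  SMC := Pool.Agent.H60.UNT.pf_SMC
  SRF := Pool.Agent.H60.UNT.pf_SRF
  CHT := Pool.Agent.H62.UNT.pf_CHT
  REG := Pool.Agent.H49.UNT.pf_REG
  DEG := Pool.Agent.H62.UNT.pf_DEG
  DG2 := Pool.Agent.H55.UNT.pf_DG2
  NOE := Pool.Agent.H60.UNT.pf_NOE
  LVR := Pool.Agent.H60.UNT.pf_LVR
  LVD := Pool.Agent.H4.UNT.pf_LVD
  LVS := Pool.Agent.H1.UNT.pf_LVS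
  DIV := Pool.Agent.H38.UNT.pf_DIV
  VZA := Pool.Agent.H4.UNT.pf_VZA
  VEX := Pool.Agent.H60.UNT.pf_VEX
  VUN := Pool.Agent.H14.UNT.pf_VUN
  VDS := Pool.Agent.H14.UNT.pf_VDS
  VCL := Pool.Agent.H37.UNT.pf_VCL
  VEF := Pool.Agent.H36.UNT.pf_VEF
  FSU := Pool.Agent.H62.UNT.pf_FSU
  SC0 := Pool.Agent.H80.UNT.pf_SC0
  TAU := Pool.Agent.H62.UNT.pf_TAU
  KSF := Pool.Agent.H1.UNT.pf_KSF
  HCL := Pool.Agent.H20.UNT.pf_HCL
  HEX := Pool.Agent.H20.UNT.pf_HEX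
  HUN := Pool.Agent.H62.UNT.pf_HUN
  SPN := Pool.Agent.H20.UNT.pf_SPN
  QIR := Pool.Agent.H2.UNT.pf_QIR
  HCT := Pool.Agent.H21.UNT.pf_HCT
  HGF := Pool.Agent.H5.UNT.pf_HGF
  HGL := Pool.Agent.H13.UNT.pf_HGL
  HRD := Pool.Agent.H37.UNT.pf_HRD
  NRM := Pool.Agent.H37.UNT.pf_NRM
  SEC := Pool.Agent.H15.UNT.pf_SEC
  HDV := Pool.Agent.H62.UNT.pf_HDV
  HAR := Pool.Agent.H63.UNT.pf_HAR
  RAT := Pool.Agent.H67.UNT.pf_RAT
  FGR := Pool.Agent.H54.UNT.pf_FGR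
  FRA := Pool.Agent.H20.UNT.pf_FRA
  GLU := Pool.Agent.H62.UNT.pf_GLU
  SMO := Pool.Agent.H11.UNT.pf_SMO
  CPL := Pool.Agent.H36.UNT.pf_CPL
  TRD := Pool.Agent.H56.UNT.pf_TRD
  EVA := Pool.Agent.H36.UNT.pf_EVA

theorem geom : Geometry := geometry rows

end Pool.Agent.H62.UN
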