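import Pool.Agent.H17.UN.Geom

/-!
# MP_8b378c_ag: geometry of the conic bundle surface, definitions
-/

set_option autoImplicit false

namespace Pool.Agent.H62.UN

open Polynomial Pool.Agent.H17.UN

/-- `o` is a normalised discrete valuation of the field `E` (with the value `0` at `0`). -/
structure IsVal {E : Type} [Field E] (o : E → ℤ) : Prop where
  zero : o 0 = 0
  mul : ∀ a b, a ≠ 0 → b ≠ 0 → o (a * b) = o a + o b
  add : ∀ a b, a ≠ 0 → b ≠ 0 → a + b ≠ 0 → min (o a) (o b) ≤ o (a + b)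
  norm : ∃ a, o a = 1

/-- The field `E` is the field of fractions of the subalgebra `A`. -/
def Frc {k E : Type} [Field k] [Field E] [Algebra k E] (A : Subalgebra k E) : Prop :=
  ∀ x : E, ∃ a ∈ A, ∃ b ∈ A, b ≠ 0 ∧ x = a / b

/-- The valuation ring of `o` is the local ring of `A` at the centre of `o`. -/
structure Ctr {k E : Type} [Field k] [Field E] [Algebra k E] (A : Subalgebra k E) (o : E → ℤ) :
    Prop where
  nn : ∀ a ∈ A, 0 ≤ o a
  loc : ∀ x, x ≠ 0 → 0 ≤ o x → ∃ a ∈ A, ∃ b ∈ A, b ≠ 0 ∧ o b = 0 ∧ x = a / b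

/-- The data of a chart `y ^ 2 = P(x) + Q(x) z ^ 2`. -/
structure Chart {k E : Type} [Field k] [Field E] [Algebra k E] (P Q : k[X]) (x y z : E) :
    Prop where
  eq : y ^ 2 = aeval x P + aeval x Q * z ^ 2
  ind : AlgebraicIndependent k ![x, z]
  gen : IntermediateField.adjoin k {x, y, z} = ⊤
  sep : (P * Q).Separable

/-- The coordinate ring of a chart. -/
abbrev cr (k : Type) {E : Type} [Field k] [Field E] [Algebra k E] (x y z : E) : Subalgebra k E :=
  Algebra.adjoin k {x, y, z}

/-- The polynomial `P(x) + Q(x) z ^ 2` (outer variable `z`). -/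
noncomputable def dp {k : Type} [Field k] (P Q : k[X]) : k[X][X] := C P + C Q * X ^ 2

/-- The ring `k[x, z, y] / (y ^ 2 - P(x) - Q(x) z ^ 2)`. -/
abbrev CR {k : Type} [Field k] (P Q : k[X]) : Type := AdjoinRoot (X ^ 2 - C (dp P Q) : k[X][X][X])

section

variable {k : Type} [Field k] (P Q : k[X])

/-- The coordinate `x`. -/
noncomputable def xC : CR P Q := AdjoinRoot.of _ (C X)

/-- The coordinate `z`. -/
noncomputable def zC : CR P Q := AdjoinRoot.of _ X

/-- The coordinate `y`. -/
noncomputable def yC : CR P Q := AdjoinRoot.root _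

end

/-- `o` is the place of `κ(τ)` given by the polynomial `π`. -/
def IsPl {κ E : Type} [Field κ] [Field E] [Algebra κ E] (τ : E) (π : κ[X]) (o : E → ℤ) : Prop :=
  ∀ (n : ℕ) (g : κ[X]), ¬ π ∣ g → o (aeval τ (π ^ n * g)) = n

/-- `o` is the place of `κ(τ)` at infinity. -/
def IsInf (κ : Type) {E : Type} [Field κ] [Field E] [Algebra κ E] (τ : E) (o : E → ℤ) : Prop :=
  ∀ g : κ[X], g ≠ 0 → o (aeval τ g) = -(g.natDegree : ℤ)

/-- The field `k(s)`. -/
abbrev ks (k : Type) {F : Type} [Field k] [Field F] [Algebra k F] (s : F) :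
    IntermediateField k F := IntermediateField.adjoin k {s}

/-- `o` is trivial on `k(s)`. -/
def Triv {k F : Type} [Field k] [Field F] [Algebra k F] (s : F) (o : F → ℤ) : Prop :=
  ∀ c : ks k s, o (c : F) = 0

section

variable {k F : Type} [Field k] [Field F] [Algebra k F] {n : ℕ} {A : Fin n → Subalgebra k F}

theorem pd_val (v : PrimeDivisor A) : IsVal v.ord :=
  ⟨v.ord_zero, v.ord_mul, v.ord_add, v.norm⟩

theorem pd_ctr (v : PrimeDivisor A) : ∃ i, Ctr (A i) v.ord := by
  obtain ⟨i, h1, h2⟩ := v.centre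
  exact ⟨i, h1, h2⟩

/-- The prime divisor given by a valuation. -/
def toPD (o : F → ℤ) (h : IsVal o) (i : Fin n) (hc : Ctr (A i) o) : PrimeDivisor A :=
  ⟨o, h.zero, h.mul, h.add, h.norm, i, hc.nn, hc.loc⟩

theorem pd_ext {v v' : PrimeDivisor A} (h : v.ord = v'.ord) : v = v' := by
  cases v; cases v'; subst h; rfl

end

end Pool.Agent.H62.UN
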