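import Pool.Agent.H62.UN.Defs

/-!
# MP_8b378c_ag: geometry of the conic bundle surface, targets of the board un_modules
-/

set_option autoImplicit false

namespace Pool.Agent.H62.UN

open Polynomial Pool.Agent.H17.UN

/-! ### Valuations -/

/-- UNV: a discrete valuation ring is a maximal subring. -/
def T_UNV : Prop := ∀ (E : Type) [Field E] (o o' : E → ℤ), IsVal o → IsVal o' →
  (∀ x, x ≠ 0 → 0 ≤ o x → 0 ≤ o' x) → o = o'

/-- UNQ: a prime divisor is determined by its centre. -/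
def UNQ : Prop := ∀ (k E : Type) [Field k] [Field E] [Algebra k E] (A : Subalgebra k E)
  (o o' : E → ℤ), IsVal o → IsVal o' → Ctr A o → Ctr A o' → (∀ a ∈ A, 0 < o' a → 0 < o a) → o = o'

/-- UNQ with its hypothesis. -/
def T_UNQ : Prop := T_UNV → UNQ

/-- CTQ: the centre of a prime divisor contains no smaller prime ideals different from zero. -/
def T_CTQ : Prop := ∀ (k E : Type) [Field k] [Field E] [Algebra k E] (A : Subalgebra k E)
  (o : E → ℤ), IsVal o → Ctr A o → ∀ q : Ideal A, q.IsPrime → (∃ h ∈ q, h ≠ 0) →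
  (∀ a ∈ q, a ≠ 0 → 0 < o (a : E)) → ∀ a : A, 0 < o (a : E) → a ∈ q

/-- DVC: construction of a discrete valuation. -/
def T_DVC : Prop := ∀ (k E : Type) [Field k] [Field E] [Algebra k E] (A : Subalgebra k E),
  IsNoetherianRing A → Frc A → ∀ (q : Ideal A) (ϖ u : A), q.IsPrime → ϖ ∈ q → ϖ ≠ 0 → u ∉ q →
  (∀ b ∈ q, ∃ c, u * b = ϖ * c) →
  ∃ o : E → ℤ, IsVal o ∧ Ctr A o ∧ o (ϖ : E) = 1 ∧ ∀ a : A, 0 < o (a : E) → a ∈ q

/-- FIN: finite support on a chart. -/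
def FIN : Prop := ∀ (k E : Type) [Field k] [Field E] [Algebra k E] (A : Subalgebra k E),
  IsNoetherianRing A → Frc A → ∀ f : E, f ≠ 0 → {o : E → ℤ | IsVal o ∧ Ctr A o ∧ o f ≠ 0}.Finite

/-- FIN with its hypotheses. -/
def T_FIN : Prop := T_CTQ → UNQ → FIN

/-- SPR: a prime divisor which meets a second chart is centred on it. -/
def T_SPR : Prop := ∀ (k E : Type) [Field k] [Field E] [Algebra k E] (A A' : Subalgebra k E),
  (∃ a ∈ A, a ≠ 0 ∧ ∀ x : E, x ∈ A ⊔ A' ↔ ∃ b ∈ A, ∃ r : ℕ, x = b / a ^ r) →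
  (∃ a ∈ A', a ≠ 0 ∧ ∀ x : E, x ∈ A' ⊔ A ↔ ∃ b ∈ A', ∃ r : ℕ, x = b / a ^ r) →
  ∀ o : E → ℤ, IsVal o → Ctr A o → (∀ a ∈ A', 0 ≤ o a) → Ctr A' o

/-! ### The chart ring -/

/-- NFI: the coordinate ring of a chart. -/
def T_NFI : Prop := ∀ (k E : Type) [Field k] [CharZero k] [Field E] [Algebra k E] (P Q : k[X])
  (x y z : E), Chart P Q x y z → ∃ e : CR P Q ≃ₐ[k] cr k x y z,
  (e (xC P Q) : E) = x ∧ (e (yC P Q) : E) = y ∧ (e (zC P Q) : E) = z

/-- SMC: smoothness of the chart ring. -/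
def T_SMC : Prop := ∀ (k : Type) [Field k] [CharZero k] (P Q : k[X]), (P * Q).Separable →
  Algebra.Smooth k (CR P Q)

/-- SRF: the polynomials at infinity. -/
def T_SRF : Prop := ∀ (k : Type) [Field k] [CharZero k] (P Q : k[X]), P.natDegree = 3 →
  Q.natDegree = 2 → (P * Q).Separable → (P.reflect 4 * Q.reflect 2).Separable

/-- CHT: the four charts. -/
def CHT : Prop := ∀ (k F : Type) [Field k] [CharZero k] [Field F] [Algebra k F]
  (P Q : k[X]) (s y z : F), CB P Q s y z → Chart P Q s y z ∧ Chart Q P s (y / z) z⁻¹ ∧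
  Chart (P.reflect 4) (Q.reflect 2) s⁻¹ (y / s ^ 2) (z / s) ∧
  Chart (Q.reflect 2) (P.reflect 4) s⁻¹ (y / (s * z)) (s / z)

/-- CHT with its hypothesis. -/
def T_CHT : Prop := T_SRF → CHT

/-- REG: fibres over the points with `P(a) Q(a) ≠ 0`. -/
def T_REG : Prop := ∀ (k : Type) [Field k] [CharZero k] (P Q : k[X]) (a : k),
  (P * Q).eval a ≠ 0 → (Ideal.span {xC P Q - algebraMap k (CR P Q) a}).IsPrime ∧
  zC P Q ∉ Ideal.span {xC P Q - algebraMap k (CR P Q) a}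

/-- DEG: components of the degenerate fibres. -/
def T_DEG : Prop := ∀ (k : Type) [Field k] [CharZero k] (P Q : k[X]) (a : k) (l : k[X]),
  l ^ 2 = C (P.eval a) + C (Q.eval a) * X ^ 2 →
  (∃ c, yC P Q ^ 2 - aeval (zC P Q) l ^ 2 = (xC P Q - algebraMap k (CR P Q) a) * c) ∧
  ∃ φ : CR P Q →ₐ[k] k[X], φ (xC P Q) = C a ∧ φ (zC P Q) = X ∧ φ (yC P Q) = l ∧
    ∀ b, φ b = 0 → ∃ c d, b = (xC P Q - algebraMap k (CR P Q) a) * c +
      (yC P Q - aeval (zC P Q) l) * d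

/-- DG2: the intersection of the two components. -/
def T_DG2 : Prop := ∀ (k : Type) [Field k] [CharZero k] (P Q : k[X]) (a : k) (l : k[X]), l ≠ 0 →
  ∀ φ ψ : CR P Q →ₐ[k] k[X], φ (xC P Q) = C a → φ (zC P Q) = X → φ (yC P Q) = l →
  ψ (xC P Q) = C a → ψ (zC P Q) = X → ψ (yC P Q) = -l → ∀ b, φ b = 0 → ψ b = 0 →
  ∃ c, b = (xC P Q - algebraMap k (CR P Q) a) * c

/-- NOE: the chart ring is noetherian, with field of fractions `E`. -/
def T_NOE : Prop := ∀ (k E : Type) [Field k] [Field E] [Algebra k E] (x y z : E),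
  IntermediateField.adjoin k {x, y, z} = ⊤ → IsNoetherianRing (cr k x y z) ∧ Frc (cr k x y z)

/-! ### Vertical prime divisors on a chart -/

/-- LVR: the fibres over the points with `P(a) Q(a) ≠ 0`. -/
def LVR : Prop := ∀ (k E : Type) [Field k] [CharZero k] [Field E] [Algebra k E] (P Q : k[X])
  (x y z : E), Chart P Q x y z → ∀ a : k, (P * Q).eval a ≠ 0 →
  ∃ o : E → ℤ, IsVal o ∧ Ctr (cr k x y z) o ∧ o (x - algebraMap k E a) = 1 ∧ o z = 0 ∧
    ∀ o' : E → ℤ, IsVal o' → Ctr (cr k x y z) o' → 0 < o' (x - algebraMap k E a) → o' = o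

/-- LVR with its hypotheses. -/
def T_LVR : Prop := T_NFI → T_REG → T_NOE → T_DVC → T_CTQ → UNQ → LVR

/-- LVD: the components of the degenerate fibres. -/
def LVD : Prop := ∀ (k E : Type) [Field k] [CharZero k] [Field E] [Algebra k E] (P Q : k[X])
  (x y z : E), Chart P Q x y z → ∀ (a : k) (l : k[X]), l ≠ 0 →
  l ^ 2 = C (P.eval a) + C (Q.eval a) * X ^ 2 →
  ∃ o : E → ℤ, IsVal o ∧ Ctr (cr k x y z) o ∧ o (x - algebraMap k E a) = 1 ∧ o z = 0 ∧
    0 < o (y - aeval z l) ∧ ∀ o' : E → ℤ, IsVal o' → Ctr (cr k x y z) o' →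
    0 < o' (x - algebraMap k E a) → 0 < o' (y - aeval z l) → o' = o

/-- LVD with its hypotheses. -/
def T_LVD : Prop := T_NFI → T_DEG → T_NOE → T_DVC → T_CTQ → UNQ → LVD

/-- LVS: a prime divisor over `a` is one of the two components. -/
def LVS : Prop := ∀ (k E : Type) [Field k] [CharZero k] [Field E] [Algebra k E] (P Q : k[X])
  (x y z : E), Chart P Q x y z → ∀ (a : k) (l : k[X]),
  l ^ 2 = C (P.eval a) + C (Q.eval a) * X ^ 2 → ∀ o : E → ℤ, IsVal o →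
  (∀ b ∈ cr k x y z, 0 ≤ o b) → 0 < o (x - algebraMap k E a) →
  0 < o (y - aeval z l) ∨ 0 < o (y + aeval z l)

/-- LVS with its hypotheses. -/
def T_LVS : Prop := T_NFI → T_DEG → LVS

/-- DIV: functions on the chart which vanish on the fibre. -/
def DIV : Prop := ∀ (k E : Type) [Field k] [IsAlgClosed k] [CharZero k] [Field E] [Algebra k E]
  (P Q : k[X]) (x y z : E), Chart P Q x y z → ∀ (e : k), ∀ a ∈ cr k x y z, a ≠ 0 →
  (∀ o : E → ℤ, IsVal o → Ctr (cr k x y z) o → 0 < o (x - algebraMap k E e) → 0 < o a) →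
  ∃ b ∈ cr k x y z, a = (x - algebraMap k E e) * b

/-- DIV with its hypotheses. -/
def T_DIV : Prop := T_NFI → T_REG → T_DEG → T_DG2 → T_NOE → T_DVC → DIV

/-! ### Vertical prime divisors on the surface -/

/-- VZA: vertical prime divisors are centred on the charts `0` and `2`. -/
def VZA : Prop := ∀ (k F : Type) [Field k] [IsAlgClosed k] [CharZero k] [Field F] [Algebra k F]
  (P Q : k[X]) (s y z : F), CB P Q s y z → ∀ v : PrimeDivisor (ch k s y z),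
  (∀ a : k, 0 < v.ord (s - algebraMap k F a) → v.ord (s - algebraMap k F a) = 1 ∧
    v.ord z = 0 ∧ Ctr (ch k s y z 0) v.ord) ∧
  (v.ord s < 0 → v.ord s = -1 ∧ v.ord (z / s) = 0 ∧ Ctr (ch k s y z 2) v.ord)

/-- VZA with its hypotheses. -/
def T_VZA : Prop := T_GLU → T_SPR → CHT → LVR → LVD → LVS → VZA

/-- VEX -/
def F_VEX : Prop := CHT → LVD → T_VEX

/-- VUN -/
def F_VUN : Prop := CHT → LVD → VZA → T_VUN

/-- VDS -/
def F_VDS : Prop := VZA → T_VDS

/-- VCL -/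
def F_VCL : Prop := CHT → LVR → LVS → VZA → T_VCL

/-- VEF -/
def F_VEF : Prop := CHT → LVR → T_VEF

/-- FSU -/
def F_FSU : Prop := CHT → T_NOE → FIN → T_FSU

/-! ### The generic fibre -/

/-- SC0: the conic over `k(s)` has a point. -/
def T_SC0 : Prop := ∀ (k : Type) [Field k] [IsAlgClosed k] [CharZero k] (P Q : k[X]),
  P.natDegree = 3 → Q.natDegree = 2 → (P * Q).Separable →
  ∃ y₀ z₀ : k[X], y₀ ^ 2 = P + Q * z₀ ^ 2 ∧ y₀ ≠ 0 ∧ z₀ ≠ 0

/-- The coordinate of the generic fibre. -/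
structure Tau {k F : Type} [Field k] [Field F] [Algebra k F] (P Q y₀ z₀ : k[X]) (s y z τ : F) :
    Prop where
  cb : CB P Q s y z
  eq : y₀ ^ 2 = P + Q * z₀ ^ 2
  y0 : y₀ ≠ 0
  z0 : z₀ ≠ 0
  def' : τ * (z - aeval s z₀) = y + aeval s y₀
  q0 : τ ^ 2 - aeval s Q ≠ 0
  fz : z * (τ ^ 2 - aeval s Q) =
    aeval s z₀ * τ ^ 2 + 2 * aeval s y₀ * τ + aeval s Q * aeval s z₀
  fy : y * (τ ^ 2 - aeval s Q) =
    aeval s y₀ * τ ^ 2 + 2 * aeval s Q * aeval s z₀ * τ + aeval s Q * aeval s y₀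
  tr : Transcendental (ks k s) τ
  gen : IntermediateField.adjoin (ks k s) {τ} = ⊤

/-- TAU: the coordinate exists. -/
def T_TAU : Prop := ∀ (k F : Type) [Field k] [CharZero k] [Field F] [Algebra k F]
  (P Q : k[X]) (s y z : F), CB P Q s y z → ∀ y₀ z₀ : k[X], y₀ ^ 2 = P + Q * z₀ ^ 2 → y₀ ≠ 0 →
  z₀ ≠ 0 → ∃ τ : F, Tau P Q y₀ z₀ s y z τ

/-- KSF: elements of `k(s)` and polynomials over `k(s)`. -/
def T_KSF : Prop := ∀ (k F : Type) [Field k] [Field F] [Algebra k F] (s : F), Transcendental k s →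
  (∀ c : ks k s, ∃ a b : k[X], b ≠ 0 ∧ aeval s b ≠ 0 ∧ (c : F) = aeval s a / aeval s b) ∧
  ∀ g : (ks k s)[X], ∃ (b : k[X]) (h : k[X][X]), b ≠ 0 ∧ aeval s b ≠ 0 ∧
    h.natDegree ≤ g.natDegree ∧
    ∀ τ : F, aeval s b * aeval τ g = eval₂ (aeval s : k[X] →ₐ[k] F).toRingHom τ h

/-- HCL: the valuations of `κ(τ)` which are trivial on `κ`. -/
def T_HCL : Prop := ∀ (κ E : Type) [Field κ] [Field E] [Algebra κ E] (τ : E),
  Transcendental κ τ → IntermediateField.adjoin κ {τ} = ⊤ → ∀ o : E → ℤ, IsVal o →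
  (∀ c : κ, o (algebraMap κ E c) = 0) →
  (∃ π : κ[X], π.Monic ∧ Irreducible π ∧ IsPl τ π o) ∨ IsInf κ τ o

/-- HEX: all these valuations exist. -/
def T_HEX : Prop := ∀ (κ E : Type) [Field κ] [Field E] [Algebra κ E] (τ : E),
  Transcendental κ τ → IntermediateField.adjoin κ {τ} = ⊤ →
  (∀ π : κ[X], π.Monic → Irreducible π → ∃ o : E → ℤ, IsVal o ∧ IsPl τ π o) ∧
  ∃ o : E → ℤ, IsVal o ∧ IsInf κ τ o

/-- HUN: the valuations are determined by the place. -/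
def T_HUN : Prop := ∀ (κ E : Type) [Field κ] [Field E] [Algebra κ E] (τ : E),
  Transcendental κ τ → IntermediateField.adjoin κ {τ} = ⊤ →
  (∀ x : E, x ≠ 0 → ∃ g h : κ[X], IsCoprime g h ∧ h.Monic ∧ g ≠ 0 ∧
    x = aeval τ g / aeval τ h) ∧
  (∀ (π : κ[X]) (o o' : E → ℤ), Irreducible π → IsVal o → IsVal o' → IsPl τ π o →
    IsPl τ π o' → o = o') ∧
  ∀ o o' : E → ℤ, IsVal o → IsVal o' → IsInf κ τ o → IsInf κ τ o' → o = o'

/-- SPN: polynomials in `τ` of degree at most `2 n`. -/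
def SPN : Prop := ∀ (k F : Type) [Field k] [CharZero k] [Field F] [Algebra k F]
  (P Q y₀ z₀ : k[X]) (s y z τ : F), Tau P Q y₀ z₀ s y z τ → ∀ (n : ℕ) (g : (ks k s)[X]),
  g.natDegree ≤ 2 * n → ∃ (c : k[X]) (a : F), c ≠ 0 ∧ aeval s c ≠ 0 ∧ a ∈ ch k s y z 0 ∧
    a / z ^ n ∈ ch k s y z 1 ∧ aeval s c * aeval τ g = a * (τ ^ 2 - aeval s Q) ^ n

/-- SPN with its hypothesis. -/
def T_SPN : Prop := T_KSF → SPN

/-- QIR: the two quadratic polynomials of the generic fibre are coprime, and the first one is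
irreducible. -/
def T_QIR : Prop := ∀ (k F : Type) [Field k] [CharZero k] [Field F] [Algebra k F]
  (P Q y₀ z₀ : k[X]) (s y z τ : F), Tau P Q y₀ z₀ s y z τ → ∀ Qs ys zs : ks k s,
  (Qs : F) = aeval s Q → (ys : F) = aeval s y₀ → (zs : F) = aeval s z₀ →
  Irreducible (X ^ 2 - C Qs : (ks k s)[X]) ∧
  IsCoprime (X ^ 2 - C Qs) (C zs * X ^ 2 + C (2 * ys) * X + C (Qs * zs))

/-- HCT: all discrete valuations which are trivial on `k(s)` are prime divisors of the surface. -/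
def HCT : Prop := ∀ (k F : Type) [Field k] [CharZero k] [Field F] [Algebra k F]
  (P Q y₀ z₀ : k[X]) (s y z τ : F), Tau P Q y₀ z₀ s y z τ →
  ∀ o : F → ℤ, IsVal o → Triv (k := k) s o →
  (0 ≤ o z → Ctr (ch k s y z 0) o) ∧ (o z < 0 → Ctr (ch k s y z 1) o)

/-- HCT with its hypotheses. -/
def T_HCT : Prop := SPN → T_KSF → T_QIR → T_HCL → T_HUN → HCT

/-- HGF: functions which are regular on the generic fibre of the chart `0`. -/
def HGF : Prop := ∀ (k F : Type) [Field k] [CharZero k] [Field F] [Algebra k F]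
  (P Q y₀ z₀ : k[X]) (s y z τ : F), Tau P Q y₀ z₀ s y z τ →
  ∀ f : F, f ≠ 0 → (∀ o : F → ℤ, IsVal o → Triv (k := k) s o → 0 ≤ o z → 0 ≤ o f) →
  ∃ (a : F) (c : k[X]), a ∈ ch k s y z 0 ∧ c ≠ 0 ∧ aeval s c ≠ 0 ∧ f = a / aeval s c

/-- HGF with its hypotheses. -/
def T_HGF : Prop := SPN → T_QIR → T_HEX → T_HUN → HGF

/-- HGL: functions without poles on the chart `0` are regular on it. -/
def HGL : Prop := ∀ (k F : Type) [Field k] [IsAlgClosed k] [CharZero k] [Field F] [Algebra k F]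
  (P Q : k[X]) (s y z : F), CB P Q s y z → ∀ f : F, f ≠ 0 →
  (∀ o : F → ℤ, IsVal o → Ctr (ch k s y z 0) o → 0 ≤ o f) → f ∈ ch k s y z 0

/-- HGL with its hypotheses. -/
def T_HGL : Prop := T_SC0 → T_TAU → HCT → HGF → CHT → DIV → HGL

/-- HRD: horizontal prime divisors. -/
def HRD : Prop := ∀ (k F : Type) [Field k] [IsAlgClosed k] [CharZero k] [Field F] [Algebra k F]
  (P Q : k[X]) (s y z : F), CB P Q s y z →
  (∀ v : PrimeDivisor (ch k s y z), Hor v → Triv (k := k) s v.ord) ∧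
  ∀ o : F → ℤ, IsVal o → Triv (k := k) s o → ∃ v : PrimeDivisor (ch k s y z), v.ord = o ∧ Hor v

/-- HRD with its hypotheses. -/
def T_HRD : Prop := T_SC0 → T_TAU → T_KSF → HCT → HRD

/-- NRM: a coordinate with its pole at a given section. -/
def NRM : Prop := ∀ (k F : Type) [Field k] [IsAlgClosed k] [CharZero k] [Field F] [Algebra k F]
  (P Q : k[X]) (s y z : F), CB P Q s y z → ∀ D1 : PrimeDivisor (ch k s y z), Sect D1 →
  ∃ τ : F, Transcendental (ks k s) τ ∧ IntermediateField.adjoin (ks k s) {τ} = ⊤ ∧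
    IsInf (ks k s) τ D1.ord

/-- NRM with its hypotheses. -/
def T_NRM : Prop := T_SC0 → T_TAU → HRD → T_HCL → NRM

/-- SEC -/
def F_SEC : Prop := T_SC0 → T_TAU → T_KSF → T_HCL → T_HEX → T_HUN → HRD → T_SEC

/-- HDV -/
def F_HDV : Prop := T_KSF → T_HCL → T_HEX → T_HUN → HRD → NRM → T_HDV

/-- HAR -/
def F_HAR : Prop := HGL → T_FSU → T_HAR

/-- RAT -/
def F_RAT : Prop := T_SC0 → T_TAU → T_RAT

/-! ### The variety -/

/-- FRA -/
def F_FRA : Prop := T_NOE → T_FRA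

/-- SMO -/
def F_SMO : Prop := T_NFI → T_SMC → CHT → T_SMO

/-- EVA -/
def F_EVA : Prop := T_NFI → CHT → ∀ (k F : Type) [Field k] [CharZero k] [Field F] [Algebra k F]
  (P Q : k[X]) (s y z : F), CB P Q s y z → ∀ p0 : k, p0 ^ 2 = P.eval 1 →
  ∃ φ : ch k s y z 0 →ₐ[k] k, IsEv p0 φ

end Pool.Agent.H62.UN
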